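import Pool.Agent.H982Z.Scat.Main

/-!
# A model of ZF with a compact metrizable dense-in-itself space all of whose scattered subspaces
are finite
-/

set_option autoImplicit false

namespace Pool.Agent.Results.MP_8cb5a2_lc.ANotProvable

open Pool.Agent.H164Z.Bspt Pool.Agent.H982Z.Scat

/-- There is a model `(M, E)` of ZF with a metrizable space `(X, τ)` that is compact, nonempty and
has no isolated point, and all of whose scattered subspaces are finite. In particular `X` has no
infinite subspace that is compact and scattered. -/
theorem result : ∃ (M : Type) (E : M → M → Prop), IsZF E ∧ ∃ X τ : M,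
    Metrizable E X τ ∧ Compact E X τ ∧ (∃ x, E x X) ∧ (∀ x, ¬ Isolated E τ X x) ∧
      ∀ Y, Sub E Y X → Scattered E τ Y → IsFin E Y :=
  main

end Pool.Agent.Results.MP_8cb5a2_lc.ANotProvable
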